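import Pool.Agent.Q298.AG.Stm

set_option autoImplicit false

/-!
# Project AG (helper298), job ULT
-/

namespace Pool.Agent.Q176.AG

open Filter Pool.Agent.H672R2.Auto Pool.Agent.H638.GP
open Pool.Agent.Q298.AG

universe u v

attribute [local instance] Ultrafilter.add Ultrafilter.addSemigroup

section

variable {m : ℕ} {C : Type v} {k : Fin m → ℕ} (M : ∀ t, Mach.{u, v} (k t) C) (p : Fin m → ℕ)
  (Γ : Set ℕ) (V : Fin 3 → ℕ)

/-- the action -/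
noncomputable def H (t : Fin m) (i : Fin 3) (γ : ℕ) (x : ℕ+) : (M t).Q → (M t).Q :=
  (M t).hat (p t) (V i * γ * (x : ℕ))

/-- divisibility along the ultrafilter -/
def DV (k : Fin m → ℕ) (p : Fin m → ℕ) (w : Ultrafilter ℕ+) : Prop :=
  ∀ E : ℕ, ∀ᶠ x : ℕ+ in (w : Filter ℕ+), ∀ t, k t ^ (p t * E) ∣ (x : ℕ)

/-- the values along the ultrafilter -/
def Val (w : Ultrafilter ℕ+) (A : ∀ t : Fin m, Fin 3 → ℕ → (M t).Q → (M t).Q) : Prop :=
  DV k p w ∧ ∀ γ ∈ Γ, ∀ t i, ∀ᶠ x : ℕ+ in (w : Filter ℕ+), H M p V t i γ x = A t i γ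

lemma val_exists {w : Ultrafilter ℕ+} (hw : DV k p w) : ∃ A, Val M p Γ V w A := by
  choose A hA using fun (t : Fin m) (i : Fin 3) (γ : ℕ) => ultra_const w (fun x : ℕ+ => H M p V t i γ x)
  exact ⟨A, hw, fun γ _ t i => hA t i γ⟩

variable {M p Γ V}

lemma H_add (hper : ∀ t, (M t).IsPer (p t)) {t : Fin m} {i : Fin 3} {γ : ℕ} {x y : ℕ+}
    (hy : k t ^ (p t * (V i * γ * (x : ℕ) + 2)) ∣ (y : ℕ)) :
    H M p V t i γ (x + y) = H M p V t i γ y ∘ H M p V t i γ x := by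
  have h := hper t
  obtain ⟨b, hb⟩ := hy
  obtain ⟨X, hX⟩ : ∃ X : ℕ, X = V i * γ * (x : ℕ) := ⟨_, rfl⟩
  rw [← hX] at hb
  have e1 : V i * γ * (y : ℕ) = k t ^ (p t * (X + 2)) * (V i * γ * b) := by
    rw [hb]
    ring
  have e2 : V i * γ * ((x + y : ℕ+) : ℕ) = X + k t ^ (p t * (X + 2)) * (V i * γ * b) := by
    rw [PNat.add_coe, mul_add, e1, hX]
  have hlt : X < k t ^ (p t * (X + 1)) := Mach.lt_pow_self' h X
  funext q
  show (M t).hat (p t) (V i * γ * ((x + y : ℕ+) : ℕ)) q =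
    (M t).hat (p t) (V i * γ * (y : ℕ)) ((M t).hat (p t) (V i * γ * (x : ℕ)) q)
  rw [e1, e2, ← hX, Mach.hat_add h hlt (by omega : X + 1 < X + 2)]
  have h2 := Mach.hat_add h (x := 0) (j := 0) (i := X + 2) (by simp) (by omega) (V i * γ * b)
    ((M t).hat (p t) X q)
  rw [zero_add] at h2
  rw [h2, Mach.hat_zero h, Mach.hat_E h]

lemma dv_add {w w' : Ultrafilter ℕ+} (hw : DV k p w) (hw' : DV k p w') : DV k p (w + w') := by
  intro E
  rw [Ultrafilter.eventually_add]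
  filter_upwards [hw E] with x hx
  filter_upwards [hw' E] with y hy
  intro t
  rw [PNat.add_coe]
  exact dvd_add (hx t) (hy t)

lemma val_add (hper : ∀ t, (M t).IsPer (p t)) {w w' : Ultrafilter ℕ+}
    {A A' : ∀ t : Fin m, Fin 3 → ℕ → (M t).Q → (M t).Q} (hw : Val M p Γ V w A) (hw' : Val M p Γ V w' A') :
    Val M p Γ V (w + w') (fun t i γ => A' t i γ ∘ A t i γ) := by
  refine ⟨dv_add hw.1 hw'.1, fun γ hγ t i => ?_⟩
  rw [Ultrafilter.eventually_add]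
  filter_upwards [hw.2 γ hγ t i] with x hx
  filter_upwards [hw'.2 γ hγ t i, hw'.1 (V i * γ * (x : ℕ) + 2)] with y hy1 hy2
  rw [H_add hper (hy2 t), hx, hy1]

lemma val_iter (hper : ∀ t, (M t).IsPer (p t)) {w : Ultrafilter ℕ+}
    {A : ∀ t : Fin m, Fin 3 → ℕ → (M t).Q → (M t).Q} (hw : Val M p Γ V w A) (n : ℕ) :
    ∃ q : Ultrafilter ℕ+, Val M p Γ V q (fun t i γ => (A t i γ)^[n + 1]) := by
  induction n with
  | zero => exact ⟨w, hw⟩
  | succ n ih =>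
    obtain ⟨q, hq⟩ := ih
    refine ⟨q + w, ?_⟩
    have h := val_add hper hq hw
    have e : (fun (t : Fin m) (i : Fin 3) (γ : ℕ) => (A t i γ)^[n + 1 + 1]) =
        fun t i γ => A t i γ ∘ (A t i γ)^[n + 1] := by
      funext t i γ
      exact Function.iterate_succ' _ _
    rw [e]
    exact h

variable (M p Γ V) in
/-- the closed subsemigroup -/
def SS : Set (Ultrafilter ℕ+) := {w | DV k p w ∧ ∀ γ ∈ Γ, ∀ᶠ x : ℕ+ in (w : Filter ℕ+), ∀ t i j,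
  H M p V t i γ x = H M p V t j γ x}

lemma ss_closed : IsClosed (SS M p Γ V) := by
  have e : SS M p Γ V = (⋂ E : ℕ, {w : Ultrafilter ℕ+ | {x : ℕ+ | ∀ t, k t ^ (p t * E) ∣ (x : ℕ)} ∈ w}) ∩
      ⋂ γ ∈ Γ, {w : Ultrafilter ℕ+ | {x : ℕ+ | ∀ t i j, H M p V t i γ x = H M p V t j γ x} ∈ w} := by
    ext w
    simp only [SS, DV, Set.mem_ofPred_eq, Set.mem_inter_iff, Set.mem_iInter]
    rfl
  rw [e]
  exact (isClosed_iInter fun E => ultrafilter_isClosed_basic _).inter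
    (isClosed_biInter fun γ _ => ultrafilter_isClosed_basic _)

lemma ss_of_val {w : Ultrafilter ℕ+} {A : ∀ t : Fin m, Fin 3 → ℕ → (M t).Q → (M t).Q} (hw : Val M p Γ V w A)
    (hA : ∀ γ ∈ Γ, ∀ t i j, A t i γ = A t j γ) : w ∈ SS M p Γ V := by
  refine ⟨hw.1, fun γ hγ => ?_⟩
  have h1 : ∀ᶠ x : ℕ+ in (w : Filter ℕ+), ∀ t i, H M p V t i γ x = A t i γ := by
    rw [eventually_all]
    intro t
    rw [eventually_all]
    intro i
    exact hw.2 γ hγ t i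
  filter_upwards [h1] with x hx t i j
  rw [hx, hx, hA γ hγ t i j]

lemma val_of_ss {w : Ultrafilter ℕ+} (hw : w ∈ SS M p Γ V) : ∃ A, Val M p Γ V w A ∧
    ∀ γ ∈ Γ, ∀ t i j, A t i γ = A t j γ := by
  obtain ⟨A, hA⟩ := val_exists M p Γ V hw.1
  refine ⟨A, hA, fun γ hγ t i j => ?_⟩
  obtain ⟨x, h1, h2, h3⟩ := ((hA.2 γ hγ t i).and ((hA.2 γ hγ t j).and (hw.2 γ hγ))).exists
  rw [← h1, ← h2, h3 t i j]

lemma ss_add (hper : ∀ t, (M t).IsPer (p t)) {w w' : Ultrafilter ℕ+} (hw : w ∈ SS M p Γ V)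
    (hw' : w' ∈ SS M p Γ V) : w + w' ∈ SS M p Γ V := by
  obtain ⟨A, hA, h1⟩ := val_of_ss hw
  obtain ⟨A', hA', h2⟩ := val_of_ss hw'
  refine ss_of_val (val_add hper hA hA') fun γ hγ t i j => ?_
  rw [h1 γ hγ t i j, h2 γ hγ t i j]

end

/-- Job AG-ULT. -/
theorem t_ULT : J_ULT.{u, v} := by
  intro m C k M p hper N hN Γ V n hn0 hdiv heq
  obtain ⟨f, hf⟩ : ∃ f : ℕ → ℕ+, ∀ e, ((f e : ℕ+) : ℕ) = n e := ⟨fun e => ⟨n e, hn0 e⟩, fun e => rfl⟩
  obtain ⟨p0, hp0⟩ : ∃ p0 : Ultrafilter ℕ+, (p0 : Filter ℕ+) ≤ map f atTop :=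
    ⟨Ultrafilter.of _, Ultrafilter.of_le _⟩
  have hlift : ∀ P : ℕ+ → Prop, (∀ᶠ e in atTop, P (f e)) → ∀ᶠ x in (p0 : Filter ℕ+), P x :=
    fun P hP => hp0 (eventually_map.2 hP)
  have hDV : DV k p p0 := fun E => hlift (fun x => ∀ t, k t ^ (p t * E) ∣ (x : ℕ)) (by
    filter_upwards [hdiv E] with e he t
    rw [hf]
    exact he t)
  obtain ⟨A, hA⟩ := val_exists M p Γ V hDV
  obtain ⟨N', rfl⟩ : ∃ N', N = N' + 1 := ⟨N - 1, by omega⟩
  have hAA : ∀ γ ∈ Γ, ∀ t i j, (A t i γ)^[N' + 1] = (A t j γ)^[N' + 1] := by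
    intro γ hγ t i j
    have h1 := hlift (fun x => ∀ t i j, (H M p V t i γ x)^[N' + 1] = (H M p V t j γ x)^[N' + 1]) (by
      filter_upwards [heq γ hγ] with e he t i j
      unfold H
      rw [hf]
      exact he t i j)
    obtain ⟨x, h2, h3, h4⟩ := ((hA.2 γ hγ t i).and ((hA.2 γ hγ t j).and h1)).exists
    rw [← h2, ← h3, h4 t i j]
  obtain ⟨q, hq⟩ := val_iter hper hA N'
  have hqS : q ∈ SS M p Γ V := ss_of_val hq hAA
  obtain ⟨w, hwS, hww⟩ := exists_idempotent_in_compact_add_subsemigroup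
    (Ultrafilter.continuous_add_left (M := ℕ+)) (SS M p Γ V) ⟨q, hqS⟩ ss_closed.isCompact
    (fun x hx y hy => ss_add hper hx hy)
  refine ⟨w, fun P => ?_, fun γ hγ => ?_⟩
  · conv_lhs => rw [← hww]
    exact Ultrafilter.eventually_add w w P
  · filter_upwards [hwS.1 1, hwS.2 γ hγ] with x h1 h2 t
    refine ⟨?_, h2 t⟩
    have := h1 t
    rwa [mul_one] at this

end Pool.Agent.Q176.AG
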